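import Pool.Agent.T9h45.CP.Spec

/-!
# CP, piece (D): partitions into large cliques
-/

set_option autoImplicit false

namespace Pool.Agent.T9h95.CP

open Finset Classical Pool.T9h45.HY Pool.T9h45.CP Pool.Q6.CI Pool.Q11.TwoEnd

theorem cn_mono {V : Type} [Fintype V] {P Q : V → Prop} (h : ∀ w, P w → Q w) : cn P ≤ cn Q :=
  card_le_card (monotone_filter_right _ fun w _ => h w)

theorem cn_split {V : Type} [Fintype V] (P Q : V → Prop) :
    cn (fun w => P w ∧ Q w) + cn (fun w => ¬ P w ∧ Q w) = cn Q := by
  unfold cn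
  rw [← card_union_of_disjoint]
  · congr 1
    ext w
    simp only [mem_union, mem_filter, mem_univ, true_and]
    tauto
  · rw [disjoint_left]
    intro w hw hw'
    simp only [mem_filter, mem_univ, true_and] at hw hw'
    exact hw'.1 hw.1

theorem cn_succ_le {V : Type} [Fintype V] {P Q : V → Prop} (v : V) (hQ : Q v) (hP : ¬ P v)
    (h : ∀ w, P w → Q w) : cn P + 1 ≤ cn Q := by
  unfold cn
  rw [← card_insert_of_notMem (a := v) (s := univ.filter P)]
  · apply card_le_card
    intro w hw
    rw [mem_insert] at hw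
    rw [mem_filter]
    rcases hw with rfl | hw
    · exact ⟨mem_univ _, hQ⟩
    · exact ⟨mem_univ _, h w (mem_filter.1 hw).2⟩
  · rw [mem_filter]
    exact fun h => hP h.2

theorem cn_le_succ {V : Type} [Fintype V] {P Q : V → Prop} (v : V)
    (h : ∀ w, Q w → w ≠ v → P w) : cn Q ≤ cn P + 1 := by
  unfold cn
  refine le_trans (card_le_card ?_) (card_insert_le v (univ.filter P))
  intro w hw
  rw [mem_insert]
  by_cases hwv : w = v
  · exact Or.inl hwv
  · exact Or.inr (mem_filter.2 ⟨mem_univ _, h w (mem_filter.1 hw).2 hwv⟩)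

theorem cn_zero {V : Type} [Fintype V] {P : V → Prop} (h : ∀ w, ¬ P w) : cn P = 0 := by
  unfold cn
  rw [card_eq_zero, filter_eq_empty_iff]
  exact fun w _ => h w

/-- the graph with the edges inside `S` -/
def inn {V : Type} (G : SimpleGraph V) (S : V → Prop) : SimpleGraph V where
  Adj x y := G.Adj x y ∧ S x ∧ S y
  symm := ⟨fun _ _ h => ⟨h.1.symm, h.2.2, h.2.1⟩⟩
  loopless := ⟨fun _ h => h.1.ne rfl⟩

theorem dg_cn {V : Type} [Fintype V] (G : SimpleGraph V) (v : V) :
    dg G v = cn (fun w => G.Adj v w) := by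
  unfold dg cn
  congr 1

/-- assembling the labelling -/
theorem assemble {V : Type} [Fintype V] (G : SimpleGraph V) (S : V → Prop) (D p : ℕ) (hp : 1 ≤ p)
    (f : V → ℕ) (hf : ∀ v, 2 * f v ≤ D) (hff : ∀ u v, (S u ↔ S v) → G.Adj u v → f u ≠ f v)
    (h1 : EC (inn G S) p) (h2 : EC (inn G fun v => ¬ S v) p)
    (hc : ∃ c : V → V → ℕ, (∀ x y, G.Adj x y → S x → ¬ S y → f x ≤ c x y ∧ c x y + f y < D) ∧
      (∀ x y z, G.Adj x y → G.Adj x z → S x → ¬ S y → ¬ S z → y ≠ z → c x y ≠ c x z) ∧
      (∀ x y z, G.Adj z x → G.Adj z y → ¬ S z → S x → S y → x ≠ y → c x z ≠ c y z)) :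
    Lb G p (D + 2 * p) := by
  obtain ⟨e1, he1⟩ := h1
  obtain ⟨e2, he2⟩ := h2
  obtain ⟨c, hc1, hc2, hc3⟩ := hc
  refine ⟨fun v => if S v then f v else D + 2 * p - 1 - f v,
    fun x y => if S x then (if S y then D + p + e1 x y else p + c x y) else
      (if S y then p + c y x else e2 x y), ?_, ?_, ?_, ?_, ?_, ?_⟩
  · intro v
    have := hf v
    show (if S v then f v else D + 2 * p - 1 - f v) < D + 2 * p
    split_ifs <;> omega
  · intro v w h
    show (if S v then (if S w then D + p + e1 v w else p + c v w) else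
      (if S w then p + c w v else e2 v w)) < D + 2 * p
    by_cases hv : S v <;> by_cases hw : S w
    · rw [if_pos hv, if_pos hw]
      have := he1.lt v w ⟨h, hv, hw⟩
      omega
    · rw [if_pos hv, if_neg hw]
      have := hc1 v w h hv hw
      omega
    · rw [if_neg hv, if_pos hw]
      have := hc1 w v h.symm hw hv
      omega
    · rw [if_neg hv, if_neg hw]
      have := he2.lt v w ⟨h, hv, hw⟩
      omega
  · intro v w h
    show (if S v then (if S w then D + p + e1 v w else p + c v w) else
      (if S w then p + c w v else e2 v w)) = (if S w then (if S v then D + p + e1 w v else p + c w v) else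
      (if S v then p + c v w else e2 w v))
    by_cases hv : S v <;> by_cases hw : S w
    · rw [if_pos hv, if_pos hw, if_pos hw, if_pos hv, he1.symm v w ⟨h, hv, hw⟩]
    · rw [if_pos hv, if_neg hw, if_neg hw, if_pos hv]
    · rw [if_neg hv, if_pos hw, if_pos hw, if_neg hv]
    · rw [if_neg hv, if_neg hw, if_neg hw, if_neg hv, he2.symm v w ⟨h, hv, hw⟩]
  · intro v w h
    show (if S v then f v else D + 2 * p - 1 - f v) ≠ (if S w then f w else D + 2 * p - 1 - f w)
    have h3 := hf v
    have h4 := hf w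
    by_cases hv : S v <;> by_cases hw : S w
    · rw [if_pos hv, if_pos hw]
      exact hff v w ⟨fun _ => hw, fun _ => hv⟩ h
    · rw [if_pos hv, if_neg hw]
      omega
    · rw [if_neg hv, if_pos hw]
      omega
    · rw [if_neg hv, if_neg hw]
      have := hff v w ⟨fun h => absurd h hv, fun h => absurd h hw⟩ h
      omega
  · intro u v w huv huw hne
    show (if S u then (if S v then D + p + e1 u v else p + c u v) else
      (if S v then p + c v u else e2 u v)) ≠ (if S u then (if S w then D + p + e1 u w else p + c u w) else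
      (if S w then p + c w u else e2 u w))
    by_cases hu : S u <;> by_cases hv : S v <;> by_cases hw : S w
    · rw [if_pos hu, if_pos hv, if_pos hu, if_pos hw]
      intro h
      exact hne (he1.inj u v w ⟨huv, hu, hv⟩ ⟨huw, hu, hw⟩ (by omega))
    · rw [if_pos hu, if_pos hv, if_pos hu, if_neg hw]
      have := hc1 u w huw hu hw
      omega
    · rw [if_pos hu, if_neg hv, if_pos hu, if_pos hw]
      have := hc1 u v huv hu hv
      omega
    · rw [if_pos hu, if_neg hv, if_pos hu, if_neg hw]
      have := hc2 u v w huv huw hu hv hw hne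
      omega
    · rw [if_neg hu, if_pos hv, if_neg hu, if_pos hw]
      have := hc3 v w u huv huw hu hv hw hne
      omega
    · rw [if_neg hu, if_pos hv, if_neg hu, if_neg hw]
      have := he2.lt u w ⟨huw, hu, hw⟩
      omega
    · rw [if_neg hu, if_neg hv, if_neg hu, if_pos hw]
      have := he2.lt u v ⟨huv, hu, hv⟩
      omega
    · rw [if_neg hu, if_neg hv, if_neg hu, if_neg hw]
      intro h
      exact hne (he2.inj u v w ⟨huv, hu, hv⟩ ⟨huw, hu, hw⟩ h)
  · intro v w h
    have h3 := hf v
    show (p : ℤ) ≤ |((if S v then f v else D + 2 * p - 1 - f v : ℕ) : ℤ) -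
      ((if S v then (if S w then D + p + e1 v w else p + c v w) else
      (if S w then p + c w v else e2 v w) : ℕ) : ℤ)|
    by_cases hv : S v <;> by_cases hw : S w
    · rw [if_pos hv, if_pos hv, if_pos hw]
      exact far (by omega)
    · rw [if_pos hv, if_pos hv, if_neg hw]
      have := hc1 v w h hv hw
      exact far (by omega)
    · rw [if_neg hv, if_neg hv, if_pos hw]
      have := hc1 w v h.symm hw hv
      rw [abs_sub_comm]
      exact far (by omega)
    · rw [if_neg hv, if_neg hv, if_neg hw]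
      have := he2.lt v w ⟨h, hv, hw⟩
      rw [abs_sub_comm]
      exact far (by omega)

/-- **Piece D** -/
theorem clique : SPieceD := by
  intro hA hB hC V _ G cl D s p hD hcl hn hs hp
  obtain ⟨S, hS1, hS2, hS3⟩ := hA V G cl
  -- the class of `v`
  have hab : ∀ v, cA S cl v + cB S cl v = cn (fun w => cl w = cl v) := fun v =>
    cn_split S fun w => cl w = cl v
  have hcE : ∀ v, cA S cl v + cB S cl v + cE G cl v ≤ D + 1 := by
    intro v
    have h1 : cn (fun w => G.Adj v w) = cn (fun w => cl w = cl v ∧ G.Adj v w) +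
        cn (fun w => ¬ cl w = cl v ∧ G.Adj v w) := (cn_split _ _).symm
    have h2 : cn (fun w => ¬ cl w = cl v ∧ G.Adj v w) = cE G cl v := by
      unfold cE cn
      congr 1
      ext w
      simp only [mem_filter, mem_univ, true_and, ne_eq]
      tauto
    have h3 : cn (fun w => cl w = cl v) ≤ cn (fun w => cl w = cl v ∧ G.Adj v w) + 1 :=
      cn_le_succ v fun w hw hwv => ⟨hw, hcl v w (fun h => hwv h.symm) hw.symm⟩
    have h4 := hD v
    have h5 := hab v
    omega
  have hcEs : ∀ v, cE G cl v ≤ s := by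
    intro v
    have h1 := hcE v
    have h2 := hn v
    have h3 := hab v
    omega
  have hcl' : ∀ u v, cl u = cl v → cA S cl u = cA S cl v ∧ cB S cl u = cB S cl v := by
    intro u v h
    unfold cA cB
    rw [h]
    exact ⟨rfl, rfl⟩
  -- lower bounds
  have hAlow : ∀ v, 4 * s ≤ cA S cl v := by
    intro v
    have h1 := hn v
    have h2 := hab v
    by_cases hy : ∃ y, ¬ S y ∧ cl y = cl v
    · obtain ⟨y, hy1, hy2⟩ := hy
      have h3 := hS3 y hy1
      have h4 := hcl' y v hy2
      have h5 := hcEs y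
      omega
    · have h3 : cB S cl v = 0 := cn_zero fun w hw => hy ⟨w, hw⟩
      omega
  have hBlow : ∀ v, 4 * s ≤ cB S cl v := by
    intro v
    have h1 := hn v
    have h2 := hab v
    by_cases hy : ∃ y, S y ∧ cl y = cl v
    · obtain ⟨y, hy1, hy2⟩ := hy
      have h3 := hS2 y hy1
      have h4 := hcl' y v hy2
      have h5 := hcEs y
      omega
    · have h3 : cA S cl v = 0 := cn_zero fun w hw => hy ⟨w, hw⟩
      omega
  obtain ⟨f1, hf1, hf1'⟩ := hB V G cl S s (fun v _ => le_trans
    (cn_mono fun w hw => ⟨hw.2.1, hw.2.2⟩) (hcEs v)) (fun v _ => hAlow v)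
  obtain ⟨f2, hf2, hf2'⟩ := hB V G cl (fun v => ¬ S v) s (fun v _ => le_trans
    (cn_mono fun w hw => ⟨hw.2.1, hw.2.2⟩) (hcEs v)) (fun v _ => hBlow v)
  set f : V → ℕ := fun v => if S v then f1 v else f2 v with hfdef
  have hfS : ∀ v, S v → f v = f1 v := fun v h => if_pos h
  have hfN : ∀ v, ¬ S v → f v = f2 v := fun v h => if_neg h
  have hfA : ∀ v, S v → f v < cA S cl v := by
    intro v h
    rw [hfS v h]
    exact hf1 v h
  have hfB : ∀ v, ¬ S v → f v < cB S cl v := by
    intro v h
    rw [hfN v h]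
    exact hf2 v h
  have hfd : ∀ u v, (S u ↔ S v) → u ≠ v → (cl u = cl v ∨ G.Adj u v) → f u ≠ f v := by
    intro u v huv hne h
    by_cases hu : S u
    · rw [hfS u hu, hfS v (huv.1 hu)]
      exact hf1' u v hu (huv.1 hu) hne h
    · have hv : ¬ S v := fun h => hu (huv.2 h)
      rw [hfN u hu, hfN v hv]
      exact hf2' u v hu hv hne h
  -- the degrees inside
  have hdS : ∀ v, dg (inn G S) v ≤ p - 1 := by
    intro v
    rw [dg_cn]
    by_cases hv : S v
    · have h1 : cn (fun w => (inn G S).Adj v w) + 1 + cO G S cl v ≤ cA S cl v + cE G cl v := by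
        have e1 : cn (fun w => (inn G S).Adj v w) = cn (fun w => cl w = cl v ∧ (inn G S).Adj v w) +
          cn (fun w => ¬ cl w = cl v ∧ (inn G S).Adj v w) := (cn_split _ _).symm
        have e2 : cn (fun w => cl w = cl v ∧ (inn G S).Adj v w) + 1 ≤ cA S cl v :=
          cn_succ_le v ⟨hv, rfl⟩ (fun h => h.2.1.ne rfl) fun w hw => ⟨hw.2.2.2, hw.1⟩
        have e3 : cn (fun w => ¬ cl w = cl v ∧ (inn G S).Adj v w) + cO G S cl v ≤ cE G cl v := by
          have := cn_split S fun w => G.Adj v w ∧ cl w ≠ cl v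
          have e4 : cn (fun w => ¬ cl w = cl v ∧ (inn G S).Adj v w) ≤
              cn (fun w => S w ∧ G.Adj v w ∧ cl w ≠ cl v) :=
            cn_mono fun w hw => ⟨hw.2.2.2, hw.2.1, hw.1⟩
          have e5 : cO G S cl v ≤ cn (fun w => ¬ S w ∧ G.Adj v w ∧ cl w ≠ cl v) :=
            cn_mono fun w hw => ⟨fun h => hw.2.2 ⟨fun _ => hv, fun _ => h⟩, hw.1, hw.2.1⟩
          unfold cE
          omega
        omega
      have h2 := hS2 v hv
      have h3 := hcE v
      have h4 := hcEs v
      omega
    · have : cn (fun w => (inn G S).Adj v w) = 0 := cn_zero fun w hw => hv hw.2.1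
      omega
  have hdN : ∀ v, dg (inn G fun v => ¬ S v) v ≤ p - 1 := by
    intro v
    rw [dg_cn]
    by_cases hv : S v
    · have : cn (fun w => (inn G fun v => ¬ S v).Adj v w) = 0 := cn_zero fun w hw => hw.2.1 hv
      omega
    · have h1 : cn (fun w => (inn G fun v => ¬ S v).Adj v w) + 1 + cO G S cl v ≤
          cB S cl v + cE G cl v := by
        have e1 : cn (fun w => (inn G fun v => ¬ S v).Adj v w) =
          cn (fun w => cl w = cl v ∧ (inn G fun v => ¬ S v).Adj v w) +
          cn (fun w => ¬ cl w = cl v ∧ (inn G fun v => ¬ S v).Adj v w) := (cn_split _ _).symm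
        have e2 : cn (fun w => cl w = cl v ∧ (inn G fun v => ¬ S v).Adj v w) + 1 ≤ cB S cl v :=
          cn_succ_le v ⟨hv, rfl⟩ (fun h => h.2.1.ne rfl) fun w hw => ⟨hw.2.2.2, hw.1⟩
        have e3 : cn (fun w => ¬ cl w = cl v ∧ (inn G fun v => ¬ S v).Adj v w) + cO G S cl v ≤
            cE G cl v := by
          have := cn_split S fun w => G.Adj v w ∧ cl w ≠ cl v
          have e4 : cn (fun w => ¬ cl w = cl v ∧ (inn G fun v => ¬ S v).Adj v w) ≤
              cn (fun w => ¬ S w ∧ G.Adj v w ∧ cl w ≠ cl v) :=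
            cn_mono fun w hw => ⟨hw.2.2.2, hw.2.1, hw.1⟩
          have e5 : cO G S cl v ≤ cn (fun w => S w ∧ G.Adj v w ∧ cl w ≠ cl v) :=
            cn_mono fun w hw => ⟨by
              by_contra h
              exact hw.2.2 ⟨fun h' => absurd h' h, fun h' => absurd h' hv⟩, hw.1, hw.2.1⟩
          unfold cE
          omega
        omega
      have h2 := hS3 v hv
      have h3 := hcE v
      have h4 := hcEs v
      omega
  have hp1 : 1 ≤ p := by omega
  have hE1 : EC (inn G S) p := by
    have := vizing hdS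
    rwa [Nat.sub_add_cancel hp1] at this
  have hE2 : EC (inn G fun v => ¬ S v) p := by
    have := vizing hdN
    rwa [Nat.sub_add_cancel hp1] at this
  refine assemble G S D p hp1 f ?_ ?_ hE1 hE2 ?_
  · intro v
    have h3 := hcE v
    by_cases hv : S v
    · have h1 := hfA v hv
      have h2 := hS2 v hv
      omega
    · have h1 := hfB v hv
      have h2 := hS3 v hv
      omega
  · intro u v huv h
    exact hfd u v huv h.ne (Or.inr h)
  · refine hC V G cl S D f hfA hfB (fun u v huv hne h => hfd u v huv hne (Or.inl h)) ?_ ?_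
    · intro x y hx hy hxy
      have h1 := hS1 x y hx hy hxy
      have h2 := hcE x
      have h3 := hcE y
      have h4 := hcl' x y hxy
      omega
    · intro x y hx hy hxy hadj
      have h1 := hS2 x hx
      have h2 := hS3 y hy
      have h3 := hcE x
      have h4 := hcE y
      omega

end Pool.Agent.T9h95.CP
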